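import Pool.Agent.LibBChrom26.Main

/-!
# MP_d0a63c_co, Q1: `A_b(G) ≥ φ(G)` whenever the girth of `G` is larger than `2 φ(G)`

The definitions (`bChromaticNumber`, `acyclicBChromaticNumber`, `IsAcyclicColouring`,
`IsAcyclicStep`, `IsBColouring`) are in `Pool/Agent/LibBChrom26/Defs.lean`.
`SimpleGraph.egirth` is Mathlib's girth with values in `ℕ∞` (`⊤` for forests).
-/

namespace Pool.Agent.Results.MP_d0a63c_co.AcyclicBChrom

open Pool.Agent.LibBChrom26

universe u

/-- **Full positive answer to Q1.** For every finite simple graph `G` with girth larger than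
`2 φ(G)` the acyclic b-chromatic number is at least the b-chromatic number. -/
theorem result {V : Type u} [Finite V] (G : SimpleGraph V)
    (hg : ((2 * bChromaticNumber G : ℕ) : ℕ∞) < G.egirth) :
    bChromaticNumber G ≤ acyclicBChromaticNumber G := by
  have := Fintype.ofFinite V
  exact main G hg

end Pool.Agent.Results.MP_d0a63c_co.AcyclicBChrom
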